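import Pool.Agent.W16.FX.Defs

/-!
# FX-CELL
-/

set_option autoImplicit false

namespace Pool.Agent.W402.FX

open Finset Pool.Agent.H785R2.ABC Pool.Agent.W16.FX

lemma decomp (hF : Basics) {n : ℕ} (hn : 1 ≤ n) :
    part 3 n {1, 3} * rd 3 n {0} * rd 3 n {2} ^ 3 = n := by
  have h1 := hF.part_mul 3 n {1, 3} hn
  have h2 : ({1, 3} : Finset (Fin 4))ᶜ = {0, 2} := by decide
  rw [h2, hF.part_prod 3 n {0, 2}, Finset.prod_pair (by decide),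
    hF.part_single 3 n 0 (by decide), hF.part_single 3 n 2 (by decide)] at h1
  have h3 : (((0 : Fin 4) : ℕ) + 1) = 1 := rfl
  have h4 : (((2 : Fin 4) : ℕ) + 1) = 3 := rfl
  rw [h3, h4, pow_one] at h1
  rw [mul_assoc]
  exact h1

lemma rd02 (hF : Basics) (n : ℕ) : rd 3 n {0, 2} = rd 3 n {0} * rd 3 n {2} := by
  rw [hF.rd_prod 3 n {0, 2}, Finset.prod_pair (by decide)]

lemma rad_pos' (n : ℕ) : 1 ≤ rad n :=
  Nat.succ_le_of_lt (Finset.prod_pos fun _ hp => (Nat.prime_of_mem_primeFactors hp).pos)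

lemma rad_mul_le {a b c : ℕ} (ha : a ≠ 0) (hb : b ≠ 0) (hc : c ≠ 0) (h : Nat.Coprime b c) :
    rad b * rad c ≤ rad (a * b * c) := by
  unfold rad
  rw [← prod_union (Nat.Coprime.disjoint_primeFactors h)]
  apply prod_le_prod_of_subset_of_one_le'
  · intro p hp
    rw [mem_union, Nat.mem_primeFactors, Nat.mem_primeFactors] at hp
    rw [Nat.mem_primeFactors]
    rcases hp with ⟨h1, h2, _⟩ | ⟨h1, h2, _⟩
    · exact ⟨h1, (h2.mul_left a).mul_right c, by positivity⟩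
    · exact ⟨h1, h2.mul_left _, by positivity⟩
  · intro p hp _
    exact (Nat.prime_of_mem_primeFactors hp).one_lt.le

/-- the quadruple of a triple -/
def gq (t : ℕ × ℕ × ℕ) : Quad :=
  ⟨rd 3 t.2.1 {2}, rd 3 t.2.2 {2}, rd 3 t.2.1 {0}, rd 3 t.2.2 {0}⟩

theorem stmtWcell_of (hF : Basics) (hA : StmtA4) (hW : StmtW) : StmtWcell := by
  classical
  intro u hu ε hε
  obtain ⟨D₁, hD₁, hA'⟩ := hA (ε / 3) (by positivity)
  obtain ⟨D₂, hD₂, hW'⟩ := hW (u : ℤ) (by exact_mod_cast hu) (ε / 3) (by positivity)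
  refine ⟨D₁ ^ 2 * 256 * D₂ * (16 : ℝ) ^ (ε + 3) * 256, by positivity, ?_⟩
  intro η hη0 hη1 T hcell hTu hrad s₀ hs₀
  -- facts for the members
  have habc : ∀ t ∈ T, 1 ≤ t.1 ∧ 1 ≤ t.2.1 ∧ 1 ≤ t.2.2 ∧ t.1 + t.2.1 = t.2.2 ∧
      Nat.Coprime t.2.1 t.2.2 := by
    intro t ht
    obtain ⟨h1, h2, h3, h4, _, _, h7⟩ := hcell.abc t ht
    exact ⟨h1, h2, h3, h4, h7⟩
  obtain ⟨ha0, hb0, hc0, hsum0, _⟩ := habc s₀ hs₀
  set c₀ := s₀.2.2 with hc₀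
  have hc0R : (1 : ℝ) ≤ (c₀ : ℝ) := by exact_mod_cast hc0
  have hc0pos : (0 : ℝ) < (c₀ : ℝ) := by linarith
  -- sizes of the members
  have hrd1 : ∀ t ∈ T, ∀ t' ∈ T, ∀ S, rd 3 t.2.1 S ≤ 16 * rd 3 t'.2.1 S :=
    fun t ht t' ht' S => hcell.rd_le t ht t' ht' 1 S
  have hrd2 : ∀ t ∈ T, ∀ t' ∈ T, ∀ S, rd 3 t.2.2 S ≤ 16 * rd 3 t'.2.2 S :=
    fun t ht t' ht' S => hcell.rd_le t ht t' ht' 2 S
  have hcle : ∀ t ∈ T, t.2.2 ≤ 16 * c₀ := by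
    intro t ht
    have h1 := hcell.part_le t ht s₀ hs₀ 2 univ
    have h2 : num t 2 = t.2.2 := rfl
    have h3 : num s₀ 2 = s₀.2.2 := rfl
    rw [h2, h3, hF.part_univ 3 _ (habc t ht).2.2.1, hF.part_univ 3 _ hc0] at h1
    exact h1
  set X : ℕ := 16 * c₀ with hX
  have hX1 : 1 ≤ X := by omega
  set R₁ : ℝ := 16 * (rd 3 s₀.2.1 {1, 3} : ℝ) with hR₁
  set R₂ : ℝ := 16 * (rd 3 s₀.2.2 {1, 3} : ℝ) with hR₂
  set P₁ : Finset ℕ := (Icc 1 X).filter (fun d => (rad d : ℝ) ≤ R₁) with hP₁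
  set P₂ : Finset ℕ := (Icc 1 X).filter (fun d => (rad d : ℝ) ≤ R₂) with hP₂
  have hc1 : (P₁.card : ℝ) ≤ D₁ * (X : ℝ) ^ (ε / 3) * R₁ := hA' X hX1 R₁ (by positivity)
  have hc2 : (P₂.card : ℝ) ≤ D₁ * (X : ℝ) ^ (ε / 3) * R₂ := hA' X hX1 R₂ (by positivity)
  set key : ℕ × ℕ × ℕ → ℕ × ℕ := fun t => (part 3 t.2.1 {1, 3}, part 3 t.2.2 {1, 3}) with hkey
  have hkeyP : ∀ t ∈ T, key t ∈ P₁ ×ˢ P₂ := by
    intro t ht
    obtain ⟨h1, h2, h3, h4, _⟩ := habc t ht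
    have h5 := hcle t ht
    rw [mem_product, hP₁, hP₂, mem_filter, mem_filter, mem_Icc, mem_Icc]
    refine ⟨⟨⟨hF.part_pos _ _ _, ?_⟩, ?_⟩, ⟨⟨hF.part_pos _ _ _, ?_⟩, ?_⟩⟩
    · exact le_trans (Nat.le_of_dvd (by omega) (hF.part_dvd 3 _ _ h2)) (by omega)
    · show (rad (part 3 t.2.1 {1, 3}) : ℝ) ≤ R₁
      rw [hF.rad_part 3 _ _ h2, hR₁]
      exact_mod_cast hrd1 t ht s₀ hs₀ {1, 3}
    · exact le_trans (Nat.le_of_dvd (by omega) (hF.part_dvd 3 _ _ h3)) (by omega)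
    · show (rad (part 3 t.2.2 {1, 3}) : ℝ) ≤ R₂
      rw [hF.rad_part 3 _ _ h3, hR₂]
      exact_mod_cast hrd2 t ht s₀ hs₀ {1, 3}
  -- the solutions
  have hsol : ∀ t ∈ T, Sol u (part 3 t.2.1 {1, 3} : ℕ) (part 3 t.2.2 {1, 3} : ℕ) (gq t) ∧
      (gq t).c (part 3 t.2.2 {1, 3} : ℕ) = (t.2.2 : ℤ) ∧
      (gq t).prod = ((rd 3 t.2.1 {0, 2} * rd 3 t.2.2 {0, 2} : ℕ) : ℤ) := by
    intro t ht
    obtain ⟨h1, h2, h3, h4, h5⟩ := habc t ht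
    have d1 := decomp hF h2
    have d2 := decomp hF h3
    have p1 : 0 < rd 3 t.2.1 {2} := hF.rd_pos _ _ _
    have p2 : 0 < rd 3 t.2.2 {2} := hF.rd_pos _ _ _
    have p3 : 0 < rd 3 t.2.1 {0} := hF.rd_pos _ _ _
    have p4 : 0 < rd 3 t.2.2 {0} := hF.rd_pos _ _ _
    refine ⟨⟨?_, ?_, ?_, ?_, ?_, ?_⟩, ?_, ?_⟩
    · show (0 : ℤ) < ((rd 3 t.2.1 {2} : ℕ) : ℤ)
      exact_mod_cast p1
    · show (0 : ℤ) < ((rd 3 t.2.2 {2} : ℕ) : ℤ)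
      exact_mod_cast p2
    · show (0 : ℤ) < ((rd 3 t.2.1 {0} : ℕ) : ℤ)
      exact_mod_cast p3
    · show (0 : ℤ) < ((rd 3 t.2.2 {0} : ℕ) : ℤ)
      exact_mod_cast p4
    · show ((part 3 t.2.1 {1, 3} : ℕ) : ℤ) * ((rd 3 t.2.1 {0} : ℕ) : ℤ) *
        ((rd 3 t.2.1 {2} : ℕ) : ℤ) ^ 3 + u = ((part 3 t.2.2 {1, 3} : ℕ) : ℤ) *
        ((rd 3 t.2.2 {0} : ℕ) : ℤ) * ((rd 3 t.2.2 {2} : ℕ) : ℤ) ^ 3
      have e : part 3 t.2.1 {1, 3} * rd 3 t.2.1 {0} * rd 3 t.2.1 {2} ^ 3 + u =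
          part 3 t.2.2 {1, 3} * rd 3 t.2.2 {0} * rd 3 t.2.2 {2} ^ 3 := by
        rw [d1, d2, ← h4, hTu t ht]
        ring
      exact_mod_cast e
    · show IsCoprime (((part 3 t.2.1 {1, 3} : ℕ) : ℤ) * ((rd 3 t.2.1 {0} : ℕ) : ℤ) *
        ((rd 3 t.2.1 {2} : ℕ) : ℤ)) (((part 3 t.2.2 {1, 3} : ℕ) : ℤ) *
        ((rd 3 t.2.2 {0} : ℕ) : ℤ) * ((rd 3 t.2.2 {2} : ℕ) : ℤ))
      have e1 : part 3 t.2.1 {1, 3} * rd 3 t.2.1 {0} * rd 3 t.2.1 {2} ∣ t.2.1 :=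
        Dvd.intro (rd 3 t.2.1 {2} ^ 2) (by
          calc part 3 t.2.1 {1, 3} * rd 3 t.2.1 {0} * rd 3 t.2.1 {2} * rd 3 t.2.1 {2} ^ 2
              = part 3 t.2.1 {1, 3} * rd 3 t.2.1 {0} * rd 3 t.2.1 {2} ^ 3 := by ring
            _ = t.2.1 := d1)
      have e2 : part 3 t.2.2 {1, 3} * rd 3 t.2.2 {0} * rd 3 t.2.2 {2} ∣ t.2.2 :=
        Dvd.intro (rd 3 t.2.2 {2} ^ 2) (by
          calc part 3 t.2.2 {1, 3} * rd 3 t.2.2 {0} * rd 3 t.2.2 {2} * rd 3 t.2.2 {2} ^ 2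
              = part 3 t.2.2 {1, 3} * rd 3 t.2.2 {0} * rd 3 t.2.2 {2} ^ 3 := by ring
            _ = t.2.2 := d2)
      have e3 := Nat.Coprime.coprime_dvd_left e1 (Nat.Coprime.coprime_dvd_right e2 h5)
      have e4 := Nat.isCoprime_iff_coprime.2 e3
      push_cast at e4
      exact e4
    · show ((part 3 t.2.2 {1, 3} : ℕ) : ℤ) * ((rd 3 t.2.2 {0} : ℕ) : ℤ) *
        ((rd 3 t.2.2 {2} : ℕ) : ℤ) ^ 3 = (t.2.2 : ℤ)
      exact_mod_cast d2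
    · show ((rd 3 t.2.1 {2} : ℕ) : ℤ) * ((rd 3 t.2.2 {2} : ℕ) : ℤ) *
        ((rd 3 t.2.1 {0} : ℕ) : ℤ) * ((rd 3 t.2.2 {0} : ℕ) : ℤ) = _
      rw [rd02 hF, rd02 hF]
      push_cast
      ring
  have hnear : ∀ t ∈ T, ∀ t' ∈ T, Near (gq t) (gq t') := by
    intro t ht t' ht'
    refine ⟨?_, ?_, ?_, ?_, ?_, ?_, ?_, ?_⟩
    · show ((rd 3 t.2.1 {2} : ℕ) : ℤ) ≤ 16 * ((rd 3 t'.2.1 {2} : ℕ) : ℤ)
      exact_mod_cast hrd1 t ht t' ht' {2}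
    · show ((rd 3 t'.2.1 {2} : ℕ) : ℤ) ≤ 16 * ((rd 3 t.2.1 {2} : ℕ) : ℤ)
      exact_mod_cast hrd1 t' ht' t ht {2}
    · show ((rd 3 t.2.2 {2} : ℕ) : ℤ) ≤ 16 * ((rd 3 t'.2.2 {2} : ℕ) : ℤ)
      exact_mod_cast hrd2 t ht t' ht' {2}
    · show ((rd 3 t'.2.2 {2} : ℕ) : ℤ) ≤ 16 * ((rd 3 t.2.2 {2} : ℕ) : ℤ)
      exact_mod_cast hrd2 t' ht' t ht {2}
    · show ((rd 3 t.2.1 {0} : ℕ) : ℤ) ≤ 16 * ((rd 3 t'.2.1 {0} : ℕ) : ℤ)
      exact_mod_cast hrd1 t ht t' ht' {0}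
    · show ((rd 3 t'.2.1 {0} : ℕ) : ℤ) ≤ 16 * ((rd 3 t.2.1 {0} : ℕ) : ℤ)
      exact_mod_cast hrd1 t' ht' t ht {0}
    · show ((rd 3 t.2.2 {0} : ℕ) : ℤ) ≤ 16 * ((rd 3 t'.2.2 {0} : ℕ) : ℤ)
      exact_mod_cast hrd2 t ht t' ht' {0}
    · show ((rd 3 t'.2.2 {0} : ℕ) : ℤ) ≤ 16 * ((rd 3 t.2.2 {0} : ℕ) : ℤ)
      exact_mod_cast hrd2 t' ht' t ht {0}
  set Y : ℝ := (rd 3 s₀.2.1 {0, 2} : ℝ) * rd 3 s₀.2.2 {0, 2} with hY
  have hY0 : 0 ≤ Y := by positivity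
  have hXR : (X : ℝ) = 16 * (c₀ : ℝ) := by rw [hX]; push_cast; ring
  have hXpos : (0 : ℝ) < X := by rw [hXR]; positivity
  -- one fibre
  have hfib : ∀ b ∈ P₁ ×ˢ P₂, (((T.filter (fun t => key t = b)).card : ℕ) : ℝ) ≤
      D₂ * (X : ℝ) ^ (ε / 3 + 3 * η) * (256 * Y) ^ (1 / 3 : ℝ) := by
    intro b _
    rcases (T.filter (fun t => key t = b)).eq_empty_or_nonempty with h0 | ⟨t₁, ht₁⟩
    · rw [h0, card_empty, Nat.cast_zero]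
      positivity
    obtain ⟨ht₁T, hb₁⟩ := mem_filter.1 ht₁
    obtain ⟨s1, s2, s3⟩ := hsol t₁ ht₁T
    have hM : (1 : ℤ) ≤ ((part 3 t₁.2.1 {1, 3} : ℕ) : ℤ) := by exact_mod_cast hF.part_pos _ _ _
    have hN : (1 : ℤ) ≤ ((part 3 t₁.2.2 {1, 3} : ℕ) : ℤ) := by exact_mod_cast hF.part_pos _ _ _
    have hinj : Set.InjOn gq (↑(T.filter (fun t => key t = b)) : Set (ℕ × ℕ × ℕ)) := by
      intro t ht t' ht' e
      obtain ⟨ht, hb⟩ := mem_filter.1 (mem_coe.1 ht)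
      obtain ⟨ht', hb'⟩ := mem_filter.1 (mem_coe.1 ht')
      obtain ⟨_, h2, h3, _, _⟩ := habc t ht
      obtain ⟨_, h2', h3', _, _⟩ := habc t' ht'
      have k1 : part 3 t.2.1 {1, 3} = part 3 t'.2.1 {1, 3} :=
        congrArg Prod.fst (hb.trans hb'.symm)
      have k2 : part 3 t.2.2 {1, 3} = part 3 t'.2.2 {1, 3} :=
        congrArg Prod.snd (hb.trans hb'.symm)
      have e1 : rd 3 t.2.1 {2} = rd 3 t'.2.1 {2} := by
        have := congrArg Quad.p e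
        exact Int.ofNat.inj this
      have e2 : rd 3 t.2.2 {2} = rd 3 t'.2.2 {2} := by
        have := congrArg Quad.p' e
        exact Int.ofNat.inj this
      have e3 : rd 3 t.2.1 {0} = rd 3 t'.2.1 {0} := by
        have := congrArg Quad.q e
        exact Int.ofNat.inj this
      have e4 : rd 3 t.2.2 {0} = rd 3 t'.2.2 {0} := by
        have := congrArg Quad.q' e
        exact Int.ofNat.inj this
      have f1 : t.2.1 = t'.2.1 := by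
        rw [← decomp hF h2, ← decomp hF h2', k1, e1, e3]
      have f2 : t.2.2 = t'.2.2 := by
        rw [← decomp hF h3, ← decomp hF h3', k2, e2, e4]
      exact Prod.ext ((hTu t ht).trans (hTu t' ht').symm) (Prod.ext f1 f2)
    have hQ : ∀ x ∈ (T.filter (fun t => key t = b)).image gq,
        Sol u (part 3 t₁.2.1 {1, 3} : ℕ) (part 3 t₁.2.2 {1, 3} : ℕ) x ∧ Near x (gq t₁) := by
      intro x hx
      obtain ⟨t, ht, rfl⟩ := mem_image.1 hx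
      obtain ⟨ht, hb⟩ := mem_filter.1 ht
      have k1 : part 3 t.2.1 {1, 3} = part 3 t₁.2.1 {1, 3} :=
        congrArg Prod.fst (hb.trans hb₁.symm)
      have k2 : part 3 t.2.2 {1, 3} = part 3 t₁.2.2 {1, 3} :=
        congrArg Prod.snd (hb.trans hb₁.symm)
      have h1 := (hsol t ht).1
      rw [k1, k2] at h1
      exact ⟨h1, hnear t ht t₁ ht₁T⟩
    obtain ⟨a1, a2, a3, a4, a5⟩ := habc t₁ ht₁T
    have hprod : ((gq t₁).prod : ℝ) ≤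
        (((gq t₁).c ((part 3 t₁.2.2 {1, 3} : ℕ) : ℤ) : ℤ) : ℝ) ^ (1 + η) := by
      rw [s2, s3]
      have h1 := hrad t₁ ht₁T
      have h2 : rd 3 t₁.2.1 {0, 2} * rd 3 t₁.2.2 {0, 2} ≤ rad (t₁.1 * t₁.2.1 * t₁.2.2) := by
        refine le_trans ?_ (rad_mul_le (by omega) (by omega) (by omega) a5)
        apply Nat.mul_le_mul
        · rw [← hF.rd_univ 3 t₁.2.1]
          exact Nat.le_of_dvd (hF.rd_pos _ _ _) (hF.rd_dvd _ _ _ _ (subset_univ _))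
        · rw [← hF.rd_univ 3 t₁.2.2]
          exact Nat.le_of_dvd (hF.rd_pos _ _ _) (hF.rd_dvd _ _ _ _ (subset_univ _))
      have h3 : ((rd 3 t₁.2.1 {0, 2} * rd 3 t₁.2.2 {0, 2} : ℕ) : ℝ) ≤
          (rad (t₁.1 * t₁.2.1 * t₁.2.2) : ℝ) := by exact_mod_cast h2
      push_cast at h3 ⊢
      exact h3.trans h1
    have hmain := hW' η _ _ hη0 hM hN (gq t₁) s1 hprod _ hQ
    rw [card_image_of_injOn hinj, s2, s3] at hmain
    refine hmain.trans ?_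
    have hct : ((t₁.2.2 : ℤ) : ℝ) ≤ (X : ℝ) := by
      have := hcle t₁ ht₁T
      exact_mod_cast this
    have hct0 : (0 : ℝ) ≤ ((t₁.2.2 : ℤ) : ℝ) := by positivity
    have hyt : (((rd 3 t₁.2.1 {0, 2} * rd 3 t₁.2.2 {0, 2} : ℕ) : ℤ) : ℝ) ≤ 256 * Y := by
      have i1 : (rd 3 t₁.2.1 {0, 2} : ℝ) ≤ 16 * rd 3 s₀.2.1 {0, 2} := by
        exact_mod_cast hrd1 t₁ ht₁T s₀ hs₀ {0, 2}
      have i2 : (rd 3 t₁.2.2 {0, 2} : ℝ) ≤ 16 * rd 3 s₀.2.2 {0, 2} := by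
        exact_mod_cast hrd2 t₁ ht₁T s₀ hs₀ {0, 2}
      push_cast
      calc (rd 3 t₁.2.1 {0, 2} : ℝ) * rd 3 t₁.2.2 {0, 2} ≤
            (16 * rd 3 s₀.2.1 {0, 2}) * (16 * rd 3 s₀.2.2 {0, 2}) :=
            mul_le_mul i1 i2 (by positivity) (by positivity)
        _ = 256 * Y := by rw [hY]; ring
    apply mul_le_mul
    · apply mul_le_mul_of_nonneg_left _ hD₂.le
      exact Real.rpow_le_rpow hct0 hct (by positivity)
    · exact Real.rpow_le_rpow (by positivity) hyt (by norm_num)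
    · positivity
    · positivity
  -- the sum
  set B : ℝ := D₂ * (X : ℝ) ^ (ε / 3 + 3 * η) * (256 * Y) ^ (1 / 3 : ℝ) with hB
  have hB0 : 0 ≤ B := by positivity
  have hcard : (T.card : ℝ) ≤ (P₁.card : ℝ) * P₂.card * B := by
    have h1 : (T.card : ℝ) = ∑ b ∈ P₁ ×ˢ P₂, (((T.filter (fun t => key t = b)).card : ℕ) : ℝ) := by
      rw [card_eq_sum_card_fiberwise hkeyP]
      push_cast
      rfl
    rw [h1]
    calc ∑ b ∈ P₁ ×ˢ P₂, (((T.filter (fun t => key t = b)).card : ℕ) : ℝ)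
        ≤ ∑ b ∈ P₁ ×ˢ P₂, B := sum_le_sum hfib
      _ = (P₁.card : ℝ) * P₂.card * B := by
          rw [sum_const, card_product, nsmul_eq_mul]
          push_cast
          ring
  have h256 : (256 * Y) ^ (1 / 3 : ℝ) ≤ 256 * Y ^ (1 / 3 : ℝ) := by
    rw [Real.mul_rpow (by norm_num) hY0]
    apply mul_le_mul_of_nonneg_right _ (by positivity)
    calc (256 : ℝ) ^ (1 / 3 : ℝ) ≤ (256 : ℝ) ^ (1 : ℝ) :=
          Real.rpow_le_rpow_of_exponent_le (by norm_num) (by norm_num)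
      _ = 256 := Real.rpow_one _
  have hXpow : (X : ℝ) ^ (ε / 3) * (X : ℝ) ^ (ε / 3) * (X : ℝ) ^ (ε / 3 + 3 * η) ≤
      (16 : ℝ) ^ (ε + 3) * (c₀ : ℝ) ^ (ε + 3 * η) := by
    rw [← Real.rpow_add hXpos, ← Real.rpow_add hXpos]
    have e : ε / 3 + ε / 3 + (ε / 3 + 3 * η) = ε + 3 * η := by ring
    rw [e, hXR, Real.mul_rpow (by norm_num) hc0pos.le]
    apply mul_le_mul_of_nonneg_right _ (by positivity)
    exact Real.rpow_le_rpow_of_exponent_le (by norm_num) (by linarith)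
  calc (T.card : ℝ) ≤ (P₁.card : ℝ) * P₂.card * B := hcard
    _ ≤ (D₁ * (X : ℝ) ^ (ε / 3) * R₁) * (D₁ * (X : ℝ) ^ (ε / 3) * R₂) * B := by
        apply mul_le_mul_of_nonneg_right _ hB0
        exact mul_le_mul hc1 hc2 (by positivity) (by positivity)
    _ ≤ (D₁ * (X : ℝ) ^ (ε / 3) * R₁) * (D₁ * (X : ℝ) ^ (ε / 3) * R₂) *
          (D₂ * (X : ℝ) ^ (ε / 3 + 3 * η) * (256 * Y ^ (1 / 3 : ℝ))) := by
        apply mul_le_mul_of_nonneg_left _ (by positivity)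
        rw [hB]
        exact mul_le_mul_of_nonneg_left h256 (by positivity)
    _ = (D₁ ^ 2 * 256 * D₂ * 256) *
          ((X : ℝ) ^ (ε / 3) * (X : ℝ) ^ (ε / 3) * (X : ℝ) ^ (ε / 3 + 3 * η)) *
          ((rd 3 s₀.2.1 {1, 3} : ℝ) * rd 3 s₀.2.2 {1, 3}) * Y ^ (1 / 3 : ℝ) := by
        rw [hR₁, hR₂]
        ring
    _ ≤ (D₁ ^ 2 * 256 * D₂ * 256) * ((16 : ℝ) ^ (ε + 3) * (c₀ : ℝ) ^ (ε + 3 * η)) *
          ((rd 3 s₀.2.1 {1, 3} : ℝ) * rd 3 s₀.2.2 {1, 3}) * Y ^ (1 / 3 : ℝ) := by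
        apply mul_le_mul_of_nonneg_right _ (by positivity)
        apply mul_le_mul_of_nonneg_right _ (by positivity)
        exact mul_le_mul_of_nonneg_left hXpow (by positivity)
    _ = _ := by ring

end Pool.Agent.W402.FX
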