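import Pool.Agent.W16.FX.Defs

/-!
# FX-W
-/

set_option autoImplicit false

namespace Pool.Agent.W402.FX

open Finset Pool.Agent.W16.FX

/-- lower bounds for `c` -/
lemma sol_le {u M N : ℤ} (hu : 1 ≤ u) (hM : 1 ≤ M) (hN : 1 ≤ N) {s : Quad} (hs : Sol u M N s) :
    1 ≤ s.c N ∧ s.p ≤ s.c N ∧ s.p' ≤ s.c N ∧ s.q ≤ s.c N ∧ s.q' ≤ s.c N ∧ 1 ≤ s.prod := by
  have hp : 1 ≤ s.p := hs.p_pos
  have hp' : 1 ≤ s.p' := hs.p'_pos
  have hq : 1 ≤ s.q := hs.q_pos
  have hq' : 1 ≤ s.q' := hs.q'_pos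
  have e : M * s.q * s.p ^ 3 + u = s.c N := hs.eq
  have hcdef : s.c N = N * s.q' * s.p' ^ 3 := rfl
  have hMq : 1 ≤ M * s.q := one_le_mul_of_one_le_of_one_le hM hq
  have hNq : 1 ≤ N * s.q' := one_le_mul_of_one_le_of_one_le hN hq'
  have hp3 : 1 ≤ s.p ^ 3 := one_le_pow₀ hp
  have hp'3 : 1 ≤ s.p' ^ 3 := one_le_pow₀ hp'
  have hpp : s.p ≤ s.p ^ 3 := le_self_pow₀ hp (by norm_num)
  have hpp' : s.p' ≤ s.p' ^ 3 := le_self_pow₀ hp' (by norm_num)
  refine ⟨?_, ?_, ?_, ?_, ?_, ?_⟩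
  · rw [hcdef]
    exact one_le_mul_of_one_le_of_one_le hNq hp'3
  · have : s.p ^ 3 ≤ M * s.q * s.p ^ 3 := le_mul_of_one_le_left (by positivity) hMq
    linarith
  · rw [hcdef]
    have : s.p' ^ 3 ≤ N * s.q' * s.p' ^ 3 := le_mul_of_one_le_left (by positivity) hNq
    linarith
  · have h1 : s.q ≤ M * s.q := le_mul_of_one_le_left (by positivity) hM
    have : M * s.q ≤ M * s.q * s.p ^ 3 := le_mul_of_one_le_right (by positivity) hp3
    linarith
  · rw [hcdef]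
    have h1 : s.q' ≤ N * s.q' := le_mul_of_one_le_left (by positivity) hN
    have : N * s.q' ≤ N * s.q' * s.p' ^ 3 := le_mul_of_one_le_right (by positivity) hp'3
    linarith
  · unfold Quad.prod
    exact one_le_mul_of_one_le_of_one_le (one_le_mul_of_one_le_of_one_le
      (one_le_mul_of_one_le_of_one_le hp hp') hq) hq'

lemma qq_le_prod {u M N : ℤ} {s : Quad} (hs : Sol u M N s) : s.q * s.q' ≤ s.prod := by
  have hp : 1 ≤ s.p := hs.p_pos
  have hp' : 1 ≤ s.p' := hs.p'_pos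
  have hq : 1 ≤ s.q := hs.q_pos
  have hq' : 1 ≤ s.q' := hs.q'_pos
  have h1 : 1 ≤ s.p * s.p' := one_le_mul_of_one_le_of_one_le hp hp'
  have h2 : s.q * s.q' ≤ (s.p * s.p') * (s.q * s.q') :=
    le_mul_of_one_le_left (by positivity) h1
  unfold Quad.prod
  calc s.q * s.q' ≤ (s.p * s.p') * (s.q * s.q') := h2
    _ = _ := by ring

/-- counting in a box -/
lemma card_box (K : ℕ) (T : Finset Quad)
    (h : ∀ t ∈ T, (1 ≤ t.p ∧ t.p ≤ K) ∧ (1 ≤ t.p' ∧ t.p' ≤ K) ∧ (1 ≤ t.q ∧ t.q ≤ K) ∧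
      (1 ≤ t.q' ∧ t.q' ≤ K)) : (T.card : ℝ) ≤ (K : ℝ) ^ 4 := by
  have h1 : T.card ≤ (Icc (1 : ℤ) K ×ˢ Icc (1 : ℤ) K ×ˢ Icc (1 : ℤ) K ×ˢ Icc (1 : ℤ) K).card := by
    apply card_le_card_of_injOn (fun t => (t.p, t.p', t.q, t.q'))
    · intro t ht
      obtain ⟨a, b, c, d⟩ := h t (mem_coe.1 ht)
      show (t.p, t.p', t.q, t.q') ∈
        ((Icc (1 : ℤ) K ×ˢ Icc (1 : ℤ) K ×ˢ Icc (1 : ℤ) K ×ˢ Icc (1 : ℤ) K : Finset _) : Set _)
      rw [mem_coe, mem_product, mem_product, mem_product, mem_Icc, mem_Icc, mem_Icc, mem_Icc]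
      exact ⟨a, b, c, d⟩
    · intro t _ t' _ e
      simp only [Prod.mk.injEq] at e
      exact Quad.ext e.1 e.2.1 e.2.2.1 e.2.2.2
  rw [card_product, card_product, card_product, Int.card_Icc] at h1
  have h2 : ((K : ℤ) + 1 - 1).toNat = K := by simp
  rw [h2] at h1
  have h3 : (T.card : ℝ) ≤ ((K * (K * (K * K)) : ℕ) : ℝ) := by exact_mod_cast h1
  refine h3.trans (le_of_eq ?_)
  push_cast
  ring

theorem stmtW_of (hC : StmtClass) (hD : StmtDet) : StmtW := by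
  classical
  intro u hu ε hε
  obtain ⟨D₀, hD₀, hclass⟩ := hC u hu ε hε
  obtain ⟨lam, hlam0, hlam1, hdet⟩ := hD u hu
  set K : ℕ := 16 * (2 ^ 17 * u.toNat) with hK
  refine ⟨(K : ℝ) ^ 4 + 131074 * D₀ / lam, by positivity, ?_⟩
  intro η M N hη hM hN s hs hprod T hT
  obtain ⟨hc1, hcp, hcp', hcq, hcq', hpr1⟩ := sol_le hu hM hN hs
  have hc1' : (1 : ℝ) ≤ s.c N := by exact_mod_cast hc1
  have hpr1' : (1 : ℝ) ≤ s.prod := by exact_mod_cast hpr1
  have hc0 : (0 : ℝ) < s.c N := by linarith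
  have hpr0 : (0 : ℝ) < s.prod := by linarith
  have hA : (1 : ℝ) ≤ (s.c N : ℝ) ^ (ε + 3 * η) := Real.one_le_rpow hc1' (by positivity)
  have hB : (1 : ℝ) ≤ (s.prod : ℝ) ^ (1 / 3 : ℝ) := Real.one_le_rpow hpr1' (by norm_num)
  have hAB : (1 : ℝ) ≤ (s.c N : ℝ) ^ (ε + 3 * η) * (s.prod : ℝ) ^ (1 / 3 : ℝ) :=
    one_le_mul_of_one_le_of_one_le hA hB
  have hK0 : (0 : ℝ) ≤ (K : ℝ) ^ 4 := by positivity
  have hE0 : (0 : ℝ) ≤ 131074 * D₀ / lam := by positivity
  rcases lt_or_ge (s.c N) (2 ^ 17 * u) with hsmall | hbig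
  · -- small c
    have hKu : ((K : ℕ) : ℤ) = 16 * (2 ^ 17 * u) := by
      rw [hK]
      push_cast
      rw [Int.toNat_of_nonneg (by linarith)]
    have h1 : (T.card : ℝ) ≤ (K : ℝ) ^ 4 := by
      apply card_box
      intro t ht
      obtain ⟨h2, h3⟩ := hT t ht
      have a1 := h2.p_pos
      have a2 := h2.p'_pos
      have a3 := h2.q_pos
      have a4 := h2.q'_pos
      have b1 := h3.p_le
      have b2 := h3.p'_le
      have b3 := h3.q_le
      have b4 := h3.q'_le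
      rw [hKu]
      refine ⟨⟨a1, ?_⟩, ⟨a2, ?_⟩, ⟨a3, ?_⟩, ⟨a4, ?_⟩⟩ <;> linarith
    calc (T.card : ℝ) ≤ (K : ℝ) ^ 4 + 131074 * D₀ / lam := by linarith
      _ ≤ ((K : ℝ) ^ 4 + 131074 * D₀ / lam) *
            ((s.c N : ℝ) ^ (ε + 3 * η) * (s.prod : ℝ) ^ (1 / 3 : ℝ)) :=
          le_mul_of_one_le_right (by positivity) hAB
      _ = _ := by ring
  · -- large c
    set L : ℝ := lam * (s.c N : ℝ) ^ (-2 * η) * (s.prod : ℝ) ^ (-(1 / 3 : ℝ)) with hL
    have hL0 : 0 < L := by positivity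
    have hL1 : L ≤ 1 := by
      have h1 : (s.c N : ℝ) ^ (-2 * η) ≤ 1 := Real.rpow_le_one_of_one_le_of_nonpos hc1' (by linarith)
      have h2 : (s.prod : ℝ) ^ (-(1 / 3 : ℝ)) ≤ 1 :=
        Real.rpow_le_one_of_one_le_of_nonpos hpr1' (by norm_num)
      calc L ≤ 1 * 1 * 1 := by
            rw [hL]
            apply mul_le_mul (mul_le_mul hlam1 h1 (by positivity) (by norm_num)) h2 (by positivity)
              (by norm_num)
        _ = 1 := by norm_num
    have hsp : (0 : ℝ) < s.p := by exact_mod_cast hs.p_pos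
    have hsp' : (0 : ℝ) < s.p' := by exact_mod_cast hs.p'_pos
    set ρ : ℝ := (s.p : ℝ) / s.p' with hρ
    have hρ0 : 0 < ρ := div_pos hsp hsp'
    have hratio : ∀ t ∈ T, ρ / 256 ≤ (t.p : ℝ) / t.p' ∧ (t.p : ℝ) / t.p' ≤ 256 * ρ := by
      intro t ht
      obtain ⟨h2, h3⟩ := hT t ht
      have a1 : (0 : ℝ) < t.p := by exact_mod_cast h2.p_pos
      have a2 : (0 : ℝ) < t.p' := by exact_mod_cast h2.p'_pos
      have b1 : (t.p : ℝ) ≤ 16 * s.p := by exact_mod_cast h3.p_le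
      have b2 : (t.p' : ℝ) ≤ 16 * s.p' := by exact_mod_cast h3.p'_le
      have b3 : (s.p : ℝ) ≤ 16 * t.p := by exact_mod_cast h3.p_ge
      have b4 : (s.p' : ℝ) ≤ 16 * t.p' := by exact_mod_cast h3.p'_ge
      constructor
      · rw [hρ, div_div, div_le_div_iff₀ (by positivity) a2]
        calc (s.p : ℝ) * t.p' ≤ (16 * t.p) * (16 * s.p') :=
              mul_le_mul b3 b2 a2.le (by positivity)
          _ = t.p * (s.p' * 256) := by ring
      · rw [hρ, ← mul_div_assoc, div_le_div_iff₀ a2 hsp']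
        calc (t.p : ℝ) * s.p' ≤ (16 * s.p) * (16 * t.p') :=
              mul_le_mul b1 b4 hsp'.le (by positivity)
          _ = 256 * s.p * t.p' := by ring
    set f : Quad → ℕ := fun t => ⌊(256 * ((t.p : ℝ) / t.p') / ρ - 1) / L⌋₊ with hf
    set J : ℕ := ⌊65536 / L⌋₊ + 1 with hJ
    have hfJ : ∀ t ∈ T, f t ∈ range J := by
      intro t ht
      obtain ⟨h2, h3⟩ := hratio t ht
      rw [mem_range, hf, hJ, Nat.lt_succ_iff]
      apply Nat.floor_le_floor
      apply div_le_div_of_nonneg_right _ hL0.le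
      have : 256 * ((t.p : ℝ) / t.p') / ρ ≤ 65536 := by
        rw [div_le_iff₀ hρ0]
        linarith
      linarith
    have hfib : ∀ j ∈ range J, (((T.filter (fun t => f t = j)).card : ℕ) : ℝ) ≤
        2 * D₀ * (s.c N : ℝ) ^ (ε + η) := by
      intro j _
      have hsub : ∀ t ∈ T.filter (fun t => f t = j), Sol u M N t ∧ Near t s :=
        fun t ht => hT t (mem_filter.1 ht).1
      have hdep : Dep (T.filter (fun t => f t = j)) := by
        refine hdet η M N hη hM hN s hs hprod hbig _ hsub (ρ / 256 * (1 + j * L))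
          (by positivity) ?_
        intro t ht
        obtain ⟨ht1, ht2⟩ := mem_filter.1 ht
        obtain ⟨h2, h3⟩ := hratio t ht1
        have hnn : 0 ≤ (256 * ((t.p : ℝ) / t.p') / ρ - 1) / L := by
          apply div_nonneg _ hL0.le
          rw [sub_nonneg, le_div_iff₀ hρ0]
          linarith
        have h4 := Nat.floor_le hnn
        have h5 := Nat.lt_floor_add_one ((256 * ((t.p : ℝ) / t.p') / ρ - 1) / L)
        have e : ⌊(256 * ((t.p : ℝ) / t.p') / ρ - 1) / L⌋₊ = j := ht2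
        rw [e] at h4 h5
        rw [le_div_iff₀ hL0] at h4
        rw [div_lt_iff₀ hL0] at h5
        have h6 : 1 + (j : ℝ) * L ≤ 256 * ((t.p : ℝ) / t.p') / ρ := by linarith
        have h7 : 256 * ((t.p : ℝ) / t.p') / ρ ≤ 1 + ((j : ℝ) + 1) * L := by linarith
        rw [le_div_iff₀ hρ0] at h6
        rw [div_le_iff₀ hρ0] at h7
        constructor
        · linarith
        · rw [← hL]
          have h8 : 0 ≤ (j : ℝ) * L * L := by positivity
          have h9 : ρ / 256 * (1 + j * L) * (1 + L) =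
              ((1 + ((j : ℝ) + 1) * L) * ρ + j * L * L * ρ) / 256 := by ring
          rw [h9, le_div_iff₀ (by norm_num : (0 : ℝ) < 256)]
          have h10 : 0 ≤ (j : ℝ) * L * L * ρ := by positivity
          linarith
      have h1 := hclass M N hM hN s hs _ hsub hdep
      refine h1.trans ?_
      have hqq : (s.q : ℝ) * s.q' ≤ (s.c N : ℝ) ^ (1 + η) := by
        refine le_trans ?_ hprod
        exact_mod_cast qq_le_prod hs
      have hqc : (s.q : ℝ) * s.q' / s.c N ≤ (s.c N : ℝ) ^ η := by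
        rw [div_le_iff₀ hc0]
        refine hqq.trans (le_of_eq ?_)
        rw [add_comm, Real.rpow_add hc0, Real.rpow_one]
      have hcη : (1 : ℝ) ≤ (s.c N : ℝ) ^ η := Real.one_le_rpow hc1' hη
      calc D₀ * (s.c N : ℝ) ^ ε * (1 + (s.q : ℝ) * s.q' / s.c N)
          ≤ D₀ * (s.c N : ℝ) ^ ε * (2 * (s.c N : ℝ) ^ η) := by
            apply mul_le_mul_of_nonneg_left _ (by positivity)
            linarith
        _ = 2 * D₀ * (s.c N : ℝ) ^ (ε + η) := by
            rw [Real.rpow_add hc0]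
            ring
    have hcard : (T.card : ℝ) ≤ J * (2 * D₀ * (s.c N : ℝ) ^ (ε + η)) := by
      have h1 : (T.card : ℝ) = ∑ j ∈ range J, (((T.filter (fun t => f t = j)).card : ℕ) : ℝ) := by
        rw [card_eq_sum_card_fiberwise hfJ]
        push_cast
        rfl
      rw [h1]
      calc ∑ j ∈ range J, (((T.filter (fun t => f t = j)).card : ℕ) : ℝ)
          ≤ ∑ j ∈ range J, 2 * D₀ * (s.c N : ℝ) ^ (ε + η) := sum_le_sum hfib
        _ = J * (2 * D₀ * (s.c N : ℝ) ^ (ε + η)) := by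
            rw [sum_const, card_range, nsmul_eq_mul]
    have hJle : (J : ℝ) ≤ 65537 / L := by
      rw [hJ]
      push_cast
      have h1 : ((⌊65536 / L⌋₊ : ℕ) : ℝ) ≤ 65536 / L := Nat.floor_le (by positivity)
      have h2 : 1 ≤ 1 / L := by
        rw [le_div_iff₀ hL0]
        linarith
      calc ((⌊65536 / L⌋₊ : ℕ) : ℝ) + 1 ≤ 65536 / L + 1 / L := by linarith
        _ = 65537 / L := by ring
    have hLinv : 1 / L = (s.c N : ℝ) ^ (2 * η) * (s.prod : ℝ) ^ (1 / 3 : ℝ) / lam := by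
      rw [hL]
      rw [Real.rpow_neg hpr0.le, neg_mul, Real.rpow_neg hc0.le]
      field_simp
    calc (T.card : ℝ) ≤ J * (2 * D₀ * (s.c N : ℝ) ^ (ε + η)) := hcard
      _ ≤ (65537 / L) * (2 * D₀ * (s.c N : ℝ) ^ (ε + η)) :=
          mul_le_mul_of_nonneg_right hJle (by positivity)
      _ = 131074 * D₀ * (s.c N : ℝ) ^ (ε + η) * (1 / L) := by ring
      _ = 131074 * D₀ / lam * ((s.c N : ℝ) ^ (ε + η) * (s.c N : ℝ) ^ (2 * η)) *
            (s.prod : ℝ) ^ (1 / 3 : ℝ) := by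
          rw [hLinv]
          ring
      _ = 131074 * D₀ / lam * (s.c N : ℝ) ^ (ε + 3 * η) * (s.prod : ℝ) ^ (1 / 3 : ℝ) := by
          rw [← Real.rpow_add hc0]
          congr 3
          ring
      _ ≤ ((K : ℝ) ^ 4 + 131074 * D₀ / lam) * (s.c N : ℝ) ^ (ε + 3 * η) *
            (s.prod : ℝ) ^ (1 / 3 : ℝ) := by
          apply mul_le_mul_of_nonneg_right _ (by positivity)
          apply mul_le_mul_of_nonneg_right _ (by positivity)
          linarith

end Pool.Agent.W402.FX
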